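import Pool.Agent.Lib.MP_e15572_ag.Cusps

set_option autoImplicit false

namespace Pool.Agent.Results.MP_e15572_ag.PlaneCusps

open MvPolynomial Pool.Agent.Lib.MP_e15572_ag

/-- For every prime `p` and every field `k` of characteristic `p`, in `R = k[x,y]` with the
principal ideals `a_1 = (x^p + y^(p+1))` and `a_2 = (y^p + x^(p+1))`, the constancy region of the
mixed test ideal at `c = (1/p, 0)` is neither connected nor path-connected: at each of its points
exactly one coordinate is at least `1/p`, and both cases occur at interior points. -/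
theorem result (p : ℕ) [Fact p.Prime] (k : Type) [Field k] [CharP k p] :
    let a : Fin 2 → Ideal (MvPolynomial (Fin 2) k) :=
      ![Ideal.span {X 0 ^ p + X 1 ^ (p + 1)}, Ideal.span {X 1 ^ p + X 0 ^ (p + 1)}]
    let c : EuclideanSpace ℝ (Fin 2) := !₂[1 / p, 0]
    ¬ IsPreconnected (constancyRegion p a c) ∧ ¬ IsPathConnected (constancyRegion p a c) ∧
      (∀ t ∈ constancyRegion p a c,
        t 1 < (1 / p : ℝ) ∧ (1 / p : ℝ) ≤ t 0 ∨ t 0 < (1 / p : ℝ) ∧ (1 / p : ℝ) ≤ t 1) ∧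
      (∃ t ∈ interior (constancyRegion p a c), (1 / p : ℝ) ≤ t 0) ∧
      ∃ t ∈ interior (constancyRegion p a c), (1 / p : ℝ) ≤ t 1 := by
  intro a c
  have hp : (0 : ℝ) < p := by exact_mod_cast (Fact.out : p.Prime).pos
  have h0 : (1 / p : ℝ) < (p ^ 2 + 1 : ℕ) / p ^ 3 := by
    rw [div_lt_div_iff₀ hp (by positivity)]
    push_cast
    nlinarith
  have h0' : (0 : ℝ) < (1 : ℕ) / p ^ 3 := by positivity
  have hc : mixedTestIdeal p ![Ideal.span {cu k p 0 1}, Ideal.span {cu k p 1 0}] c =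
      MI k fun u v => 1 ≤ u + v := cu_boxA le_rfl h0.le h0'.le
  have c0 : Continuous fun t : EuclideanSpace ℝ (Fin 2) => t 0 := by fun_prop
  have c1 : Continuous fun t : EuclideanSpace ℝ (Fin 2) => t 1 := by fun_prop
  have box : ∀ x x' y y' : ℝ, IsOpen {t : EuclideanSpace ℝ (Fin 2) |
      t 0 ∈ Set.Ioo x x' ∧ t 1 ∈ Set.Ioo y y'} := fun _ _ _ _ =>
    (isOpen_Ioo.preimage c0).inter (isOpen_Ioo.preimage c1)
  have h1 : ∀ t ∈ constancyRegion p a c,
      t 1 < (1 / p : ℝ) ∧ (1 / p : ℝ) ≤ t 0 ∨ t 0 < (1 / p : ℝ) ∧ (1 / p : ℝ) ≤ t 1 := by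
    intro t ht
    rcases lt_or_ge (t 0) (1 / p) with g0 | g0 <;> rcases lt_or_ge (t 1) (1 / p) with g1 | g1
    · exact (cu_low ht.1 (Fin.forall_fin_two.2 ⟨g0, g1⟩) (ht.2.trans hc)).elim
    · exact .inr ⟨g0, g1⟩
    · exact .inl ⟨g1, g0⟩
    · exact (cu_high g0 g1 (ht.2.trans hc)).elim
  obtain ⟨x, x1, x2⟩ := exists_between h0
  obtain ⟨y, y1, y2⟩ := exists_between h0'
  have h2 : !₂[x, y] ∈ interior (constancyRegion p a c) :=
    interior_maximal (fun t ht => show _ ∧ _ from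
      ⟨Fin.forall_fin_two.2 ⟨(one_div_pos.2 hp).le.trans ht.1.1.le, ht.2.1.le⟩,
        (cu_boxA ht.1.1.le ht.1.2.le ht.2.2.le).trans hc.symm⟩)
      (box _ _ 0 _) ⟨⟨x1, x2⟩, y1, y2⟩
  have h3 : !₂[y, x] ∈ interior (constancyRegion p a c) :=
    interior_maximal (fun t ht => show _ ∧ _ from
      ⟨Fin.forall_fin_two.2 ⟨ht.1.1.le, (one_div_pos.2 hp).le.trans ht.2.1.le⟩,
        (cu_boxB ht.2.1.le ht.2.2.le ht.1.2.le).trans hc.symm⟩)
      (box 0 _ _ _) ⟨⟨y1, y2⟩, x1, x2⟩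
  have main : ¬ IsPreconnected (constancyRegion p a c) := fun h => by
    have g2 : y < 1 / p := (h1 _ (interior_subset h2)).elim (·.1) fun g => (x1.not_gt g.1).elim
    obtain ⟨w, hw, h6⟩ := h.intermediate_value₂ (interior_subset h3) (interior_subset h2)
      c0.continuousOn c1.continuousOn (g2.trans x1).le (g2.trans x1).le
    rcases h1 w hw with g | g <;> linarith [g.1, g.2]
  exact ⟨main, fun h => main h.isConnected.isPreconnected, h1, ⟨_, h2, x1.le⟩, _, h3, x1.le⟩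

end Pool.Agent.Results.MP_e15572_ag.PlaneCusps
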