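import Pool.Agent.Lib.MP_e15572_ag.Primary

set_option autoImplicit false

namespace Pool.Agent.Results.MP_e15572_ag.PlanePrimary

open MvPolynomial Pool.Agent.Lib.MP_e15572_ag

/-- For every prime `p` and every field `k` of characteristic `p`, in `R = k[x,y]` with
`a_1 = (x^9, x^2 y, y^4)` and `a_2 = (x^2, y)`, the constancy region of the mixed test ideal at
`c = (0, 5/2)` is neither connected nor path-connected: it misses the line `t_2 = 1/2` and has
interior points on both sides of it. -/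
theorem result (p : ℕ) [Fact p.Prime] (k : Type) [Field k] [CharP k p] :
    let a : Fin 2 → Ideal (MvPolynomial (Fin 2) k) :=
      ![Ideal.span {X 0 ^ 9, X 0 ^ 2 * X 1, X 1 ^ 4}, Ideal.span {X 0 ^ 2, X 1}]
    let c : EuclideanSpace ℝ (Fin 2) := !₂[0, 5 / 2]
    ¬ IsPreconnected (constancyRegion p a c) ∧ ¬ IsPathConnected (constancyRegion p a c) ∧
      (∀ t ∈ constancyRegion p a c, t 1 ≠ (1 / 2 : ℝ)) ∧
      (∃ t ∈ interior (constancyRegion p a c), t 1 < (1 / 2 : ℝ)) ∧
      ∃ t ∈ interior (constancyRegion p a c), (1 / 2 : ℝ) < t 1 := by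
  intro a c
  have hc : mixedTestIdeal p (pr k) c = MI k fun u v => 3 ≤ u + 2 * v :=
    tau_boxB (by norm_num [c]) (by norm_num [c]) (by norm_num [c]) (by norm_num [c])
  have c0 : Continuous fun t : EuclideanSpace ℝ (Fin 2) => t 0 := by fun_prop
  have c1 : Continuous fun t : EuclideanSpace ℝ (Fin 2) => t 1 := by fun_prop
  have box : ∀ x x' y y' : ℝ, IsOpen {t : EuclideanSpace ℝ (Fin 2) |
      t 0 ∈ Set.Ioo x x' ∧ t 1 ∈ Set.Ioo y y'} := fun _ _ _ _ =>
    (isOpen_Ioo.preimage c0).inter (isOpen_Ioo.preimage c1)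
  have h1 : ∀ t ∈ constancyRegion p a c, t 1 ≠ 1 / 2 := fun t ht h =>
    tau_line (ht.1 0) h (ht.2.trans hc)
  have h2 : ∃ t ∈ interior (constancyRegion p a c), t 1 < 1 / 2 :=
    ⟨!₂[223 / 200, 1 / 100], interior_maximal (fun t ht => show _ ∧ _ from
      ⟨Fin.forall_fin_two.2 ⟨by linarith [ht.1.1], ht.2.1.le⟩,
        (tau_boxA ht.1.1.le ht.1.2.le ht.2.1.le ht.2.2.le).trans hc.symm⟩)
      (box (10 / 9) (67 / 60) 0 (1 / 60)) (by norm_num), by norm_num⟩
  have h3 : ∃ t ∈ interior (constancyRegion p a c), 1 / 2 < t 1 :=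
    ⟨!₂[1 / 16, 41 / 16], interior_maximal (fun t ht => show _ ∧ _ from
      ⟨Fin.forall_fin_two.2 ⟨ht.1.1.le, by linarith [ht.2.1]⟩,
        (tau_boxB ht.1.1.le ht.1.2.le ht.2.1.le ht.2.2.le).trans hc.symm⟩)
      (box 0 (1 / 8) (5 / 2) (21 / 8)) (by norm_num), by norm_num⟩
  have main : ¬ IsPreconnected (constancyRegion p a c) := fun h => by
    obtain ⟨t, ht, h4⟩ := h2
    obtain ⟨t', ht', h5⟩ := h3
    obtain ⟨w, hw, h6⟩ := h.intermediate_value (interior_subset ht) (interior_subset ht')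
      c1.continuousOn ⟨h4.le, h5.le⟩
    exact h1 w hw h6
  exact ⟨main, fun h => main h.isConnected.isPreconnected, h1, h2, h3⟩

end Pool.Agent.Results.MP_e15572_ag.PlanePrimary
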